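import Pool.Agent.Work.MP_bec1e1_lv_helper14.TOP
import Pool.Agent.Work.MP_bec1e1_lv_helper14.GLUE

/-!
# The variance of the longest common subsequence is of linear order for every alphabet

For every alphabet size `K ≥ 2` there is `c > 0` with `c n ≤ Var λ_{n,K} ≤ 2 n` for all `n ≥ 1`.

Outline of the proof (`Pool/Agent/Work/MP_bec1e1_*`). Suppose `Var λ_N = o(N)` along some lengths `N`.
(1) The mean is within `O(√n)` of the limit shape in all directions. (2) Laws of the rows which are
contiguous to the uniform law then cannot change the mean to first order, which gives a linear upper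
bound for `E_Y L(x, Y)` for every fixed word `x`. (3) The quenched exponential moments grow at every
parameter `z > 0` (else the quenched free energy has polylogarithmic and polynomial variance at the
same time). (4) Planting lucky contents with hidden labels gives a coupling of two words, both
exactly uniform, with a linear surplus at small relative entropy. (5) In an environment chosen by
the mean value theorem a constant word of length `s` is on average as good as a random one, which
forces exponentially many near-ties at a positive proportion of the rows. (6) By (4) exponentially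
many near-ties are impossible.
-/

namespace Pool.Agent.Results.MP_bec1e1_pr.AllAlphabets

/-- The length of a longest common subsequence of the two words of the pair `p`. -/
noncomputable def lam {k n : ℕ} (p : (Fin n → Fin k) × (Fin n → Fin k)) : ℝ :=
  ((sSup {l : ℕ | ∃ w : List (Fin k), w.length = l ∧
    w.Sublist (List.ofFn p.1) ∧ w.Sublist (List.ofFn p.2)} : ℕ) : ℝ)

/-- The mean of `lam` over all pairs of words of length `n` over `k` letters. -/
noncomputable def mean (k n : ℕ) : ℝ :=
  (∑ p : (Fin n → Fin k) × (Fin n → Fin k), lam p) / ((k : ℝ) ^ n * (k : ℝ) ^ n)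

/-- The variance of `lam` for a uniformly random pair of words of length `n` over `k` letters. -/
noncomputable def var (k n : ℕ) : ℝ :=
  (∑ p : (Fin n → Fin k) × (Fin n → Fin k), (lam p - mean k n) ^ 2) / ((k : ℝ) ^ n * (k : ℝ) ^ n)

open Pool.Agent.LCSE Pool.Agent.LCSV

theorem pair_sum (k n : ℕ) (f : List (Fin k) → List (Fin k) → ℝ) :
    (∑ p : (Fin n → Fin k) × (Fin n → Fin k), f (List.ofFn p.1) (List.ofFn p.2)) /
      ((k : ℝ) ^ n * (k : ℝ) ^ n) = Ex k n fun x => Ex k n fun y => f x y := by
  rw [Ex_eq_sum_pi, Fintype.sum_prod_type]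
  simp only [Ex_eq_sum_pi]
  rw [← Finset.sum_div, div_div]

theorem mean_eq (k n : ℕ) : mean k n = F k n n := by
  unfold mean F
  rw [← pair_sum]
  rfl

theorem var_eq (k n : ℕ) : var k n = VarL k n := by
  unfold var VarL
  rw [← pair_sum, mean_eq]
  rfl

theorem L_rep {k n : ℕ} {a b : Fin k} (h : a ≠ b) :
    L (List.replicate n a) (List.replicate n b) = 0 := by
  apply Nat.le_zero.mp
  apply L_le
  intro l h1 h2
  rcases l with _ | ⟨c, l⟩
  · simp
  · have e1 := List.eq_of_mem_replicate (h1.subset List.mem_cons_self)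
    have e2 := List.eq_of_mem_replicate (h2.subset List.mem_cons_self)
    exact absurd (e1.symm.trans e2) h

theorem VarL_pos (k n : ℕ) (hk : 2 ≤ k) (hn : 1 ≤ n) : 0 < VarL k n := by
  have hk0 : 0 < k := by omega
  set M : ℝ := (k : ℝ) ^ n with hM
  have hM0 : 0 < M := by positivity
  have key : ∀ x y : List (Fin k), x.length = n → y.length = n →
      ((L x y : ℝ) - F k n n) ^ 2 ≤ M * (M * VarL k n) := by
    intro x y hx hy
    have h1 := BASEPAux.le_pow_mul_Ex (k := k) hk0 (n := n)
      (f := fun y => ((L x y : ℝ) - F k n n) ^ 2) (fun _ _ => sq_nonneg _) y hy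
    have h2 := BASEPAux.le_pow_mul_Ex (k := k) hk0 (n := n)
      (f := fun x => Ex k n fun y => ((L x y : ℝ) - F k n n) ^ 2)
      (fun _ _ => Ex_nonneg fun _ _ => sq_nonneg _) x hx
    calc _ ≤ M * Ex k n (fun y => ((L x y : ℝ) - F k n n) ^ 2) := h1
      _ ≤ M * (M * VarL k n) := mul_le_mul_of_nonneg_left h2 hM0.le
  have hab : (⟨0, by omega⟩ : Fin k) ≠ ⟨1, by omega⟩ := by
    intro h; simp at h
  have h1 := key (List.replicate n ⟨0, by omega⟩) (List.replicate n ⟨0, by omega⟩) (by simp) (by simp)
  have h2 := key (List.replicate n ⟨0, by omega⟩) (List.replicate n ⟨1, by omega⟩) (by simp) (by simp)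
  rw [L_self, List.length_replicate] at h1
  rw [L_rep hab] at h2
  have hn' : (1 : ℝ) ≤ n := by exact_mod_cast hn
  by_contra hcon
  push Not at hcon
  have h3 : M * (M * VarL k n) ≤ 0 :=
    mul_nonpos_of_nonneg_of_nonpos hM0.le (mul_nonpos_of_nonneg_of_nonpos hM0.le hcon)
  have h4 : (n : ℝ) - F k n n = 0 := by
    have := le_antisymm (h1.trans h3) (sq_nonneg _)
    exact pow_eq_zero_iff (two_ne_zero) |>.mp this
  have h5 : ((0 : ℕ) : ℝ) - F k n n = 0 := by
    have := le_antisymm (h2.trans h3) (sq_nonneg _)
    exact pow_eq_zero_iff (two_ne_zero) |>.mp this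
  rw [Nat.cast_zero] at h5
  linarith

/-- For every alphabet size `K ≥ 2` the variance of the length of the longest common subsequence of
two independent uniform random words of length `n` is between `c n` and `2 n`, for all `n ≥ 1`. -/
theorem result : ∀ K : ℕ, 2 ≤ K → ∃ c : ℝ, 0 < c ∧ ∀ n : ℕ, 1 ≤ n →
    c * n ≤ var K n ∧ var K n ≤ 2 * n := by
  intro K hK
  have h1 := top_MAIN K hK
  unfold Rigid at h1
  push Not at h1
  obtain ⟨ε, hε, N0, hN⟩ := h1
  have h2 : ∀ M : ℕ, ∃ c : ℝ, 0 < c ∧ ∀ n : ℕ, 1 ≤ n → n < M → c * n ≤ VarL K n := by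
    intro M
    induction M with
    | zero => exact ⟨1, one_pos, fun n _ h => absurd h (Nat.not_lt_zero n)⟩
    | succ M ih =>
      obtain ⟨c, hc, H⟩ := ih
      rcases Nat.eq_zero_or_pos M with h | h
      · exact ⟨1, one_pos, fun n h1 h2 => by omega⟩
      · have hM : (0 : ℝ) < M := by exact_mod_cast h
        have hp := VarL_pos K M hK h
        refine ⟨min c (VarL K M / M), lt_min hc (by positivity), fun n h1 h2 => ?_⟩
        have hn0 : (0 : ℝ) ≤ n := Nat.cast_nonneg n
        rcases Nat.lt_succ_iff_lt_or_eq.mp h2 with h3 | h3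
        · exact (mul_le_mul_of_nonneg_right (min_le_left _ _) hn0).trans (H n h1 h3)
        · subst h3
          calc min c (VarL K n / n) * n ≤ VarL K n / n * n :=
                mul_le_mul_of_nonneg_right (min_le_right _ _) hn0
            _ = VarL K n := by field_simp
  obtain ⟨c, hc, H⟩ := h2 N0
  refine ⟨min c ε, lt_min hc hε, fun n hn => ?_⟩
  rw [var_eq]
  have hn0 : (0 : ℝ) ≤ n := Nat.cast_nonneg n
  constructor
  · rcases lt_or_ge n N0 with h | h
    · exact (mul_le_mul_of_nonneg_right (min_le_left _ _) hn0).trans (H n hn h)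
    · exact (mul_le_mul_of_nonneg_right (min_le_right _ _) hn0).trans (hN n h).le
  · obtain ⟨k, rfl⟩ : ∃ k, K = k + 2 := ⟨K - 2, by omega⟩
    exact VarL_le k n

end Pool.Agent.Results.MP_bec1e1_pr.AllAlphabets
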