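import Pool.Agent.Work.MP_bec1e1_DEF_h67.H

/-!
# The rate of convergence of the mean length of the longest common subsequence is `O(√n)`

For every alphabet size `k + 2 ≥ 2` and all lengths `a, b`, the mean length of the longest common
subsequence of two independent uniform words of lengths `a` and `b` differs from the limit shape
`ψ (a, b) = lim E L (j a, j b) / j` by at most `C √(a + b)`; hence the second moment of
`L (a, b) - ψ (a, b)` is at most `C (a + b)`. For `a = b = n` this is `γ n - C √n ≤ E λ_n ≤ γ n` and
`E (λ_n - γ n)² ≤ C n`.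

Outline of the proof (`Pool/Agent/Work/MP_bec1e1_DEF_h67`). Let `T = p (rows) + q (columns) - LCS`
for a supporting line `(p, q)` of the limit shape at the direction `(M, B)`; `T` is a subadditive
passage time. Double the rectangle and let `g` be the column where an optimal path crosses the
middle row. Windows of crossing columns are compared with common targets at height `h = M / Z` above
and below; the width of the windows is chosen such that the loss of the limit shape inside a window
is at most `√h`, and by convexity only `O(1 + A)` windows matter if the defect is at most `A √n` at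
all scales. The maximum over one window is controlled by chaining, the mean at the ends of the
windows by concavity (Monge inequality). This gives `A(R) ≤ 0.8 A(2R) + C` for the best constant
`A(R)` up to the scale `R`, and `A(R) = O(log R)` a priori.
-/

namespace Pool.Agent.Results.MP_bec1e1_pr.MeanRate

open Filter Topology

/-- The length of a longest common subsequence of the two words of the pair `p`. -/
noncomputable def lam {k m n : ℕ} (p : (Fin m → Fin k) × (Fin n → Fin k)) : ℝ :=
  ((sSup {l : ℕ | ∃ w : List (Fin k), w.length = l ∧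
    w.Sublist (List.ofFn p.1) ∧ w.Sublist (List.ofFn p.2)} : ℕ) : ℝ)

/-- The uniform probability measure on pairs of words of lengths `m` and `n` over `k` letters. -/
noncomputable def mu (k m n : ℕ) [NeZero k] :
    MeasureTheory.Measure ((Fin m → Fin k) × (Fin n → Fin k)) :=
  (PMF.uniformOfFintype ((Fin m → Fin k) × (Fin n → Fin k))).toMeasure

/-- The mean length of the longest common subsequence of words of lengths `m` and `n`. -/
noncomputable def mean (k m n : ℕ) [NeZero k] : ℝ := ∫ p, lam p ∂(mu k m n)

theorem mean_eq (k m n : ℕ) [NeZero k] : mean k m n = Pool.Agent.LCSD.ph k m n := by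
  unfold mean mu
  have h : ∀ p : (Fin m → Fin k) × (Fin n → Fin k), lam p =
      Pool.Agent.LCSD.lcr p.1 p.2 0 0 m n := fun p => Pool.Agent.LCSD.sSup_eq_lcr p.1 p.2
  simp only [h]
  exact Pool.Agent.LCSD.integral_pair m n fun x y => Pool.Agent.LCSD.lcr x y 0 0 m n

theorem result (k : ℕ) :
    ∃ (C : ℝ) (ψ : ℕ → ℕ → ℝ),
      (∀ a b : ℕ, Tendsto (fun j : ℕ => mean (k + 2) (j * a) (j * b) / j) atTop (𝓝 (ψ a b))) ∧
      (∀ n : ℕ, ψ n n = n * ψ 1 1) ∧
      ∀ a b : ℕ, mean (k + 2) a b ≤ ψ a b ∧
        ψ a b - C * Real.sqrt ((a : ℝ) + b) ≤ mean (k + 2) a b ∧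
        ∫ p, (lam p - ψ a b) ^ 2 ∂(mu (k + 2) a b) ≤ C * ((a : ℝ) + b) := by
  obtain ⟨C, hC⟩ := Pool.Agent.LCSD.second_moment (k + 2)
  refine ⟨C, Pool.Agent.LCSD.psi (k + 2), ?_, ?_, ?_⟩
  · intro a b
    simp only [mean_eq]
    exact Pool.Agent.LCSD.psi_tendsto a b
  · intro n
    have := Pool.Agent.LCSD.psi_smul (k := k + 2) n 1 1
    rwa [Nat.mul_one] at this
  · intro a b
    obtain ⟨h1, h2, h3⟩ := hC a b
    refine ⟨by rw [mean_eq]; exact h1, by rw [mean_eq]; linarith, ?_⟩
    refine le_trans (le_of_eq ?_) h3
    unfold mu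
    have h : ∀ p : (Fin a → Fin (k + 2)) × (Fin b → Fin (k + 2)), lam p =
        Pool.Agent.LCSD.lcr p.1 p.2 0 0 a b := fun p => Pool.Agent.LCSD.sSup_eq_lcr p.1 p.2
    simp only [h]
    exact Pool.Agent.LCSD.integral_pair a b fun x y =>
      (Pool.Agent.LCSD.lcr x y 0 0 a b - Pool.Agent.LCSD.psi (k + 2) a b) ^ 2

end Pool.Agent.Results.MP_bec1e1_pr.MeanRate
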