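import Pool.Agent.Work.MP_bec1e1_E_helper47.ALL

/-!
# The upper tail of the longest common subsequence of two random words, all alphabets

For every alphabet size `k + 2 ≥ 2`, with `γ = lim E λ_n / n`, the upper tail decays slower than
every linear rate near the mean: for every `ε > 0` and all small `δ > 0`,
`P (λ_n ≥ (γ + δ) n) ≥ exp (-ε δ n)` for all large `n`.

Outline (`Pool/Agent/Work/MP_bec1e1_E_helper47/PROOF.md`): equivalently, for every `z > 0` the
rate of `E exp (z λ_n)` is strictly larger than `γ z` (theorem `growth` there). Let `c` be the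
largest parameter at which the rate is `γ c`; suppose `c > 0`. A penalised maximiser of the
normalised partition function of rectangles, blocks of logarithmic length with large common
subsequence (cheap just above `c`) inserted at a random gap, and a count of all anchored windows
bound the number of near ties at every row; a long constant block, which occurs in the rows anyway,
then costs too much, because greedy matching is strictly suboptimal at `c`.
-/

namespace Pool.Agent.Results.MP_bec1e1_pr.UpperTail

open Filter Topology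

/-- The length of a longest common subsequence of the two words of the pair `p`. -/
noncomputable def lam {k n : ℕ} (p : (Fin n → Fin k) × (Fin n → Fin k)) : ℝ :=
  ((sSup {m : ℕ | ∃ l : List (Fin k), l.length = m ∧
    l.Sublist (List.ofFn p.1) ∧ l.Sublist (List.ofFn p.2)} : ℕ) : ℝ)

/-- The uniform probability measure on pairs of words of length `n` over `k` letters. -/
noncomputable def mu (k n : ℕ) [NeZero k] :
    MeasureTheory.Measure ((Fin n → Fin k) × (Fin n → Fin k)) :=
  (PMF.uniformOfFintype ((Fin n → Fin k) × (Fin n → Fin k))).toMeasure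

theorem result (k : ℕ) :
    ∃ γ : ℝ, Tendsto (fun n : ℕ => (∫ p, lam p ∂(mu (k + 2) n)) / n) atTop (𝓝 γ) ∧
      ∀ ε : ℝ, 0 < ε → ∃ δ₀ : ℝ, 0 < δ₀ ∧ ∀ δ : ℝ, 0 < δ → δ < δ₀ → ∀ᶠ n : ℕ in atTop,
        Real.exp (-(ε * δ * n)) ≤ (mu (k + 2) n).real {p | (γ + δ) * n ≤ lam p} := by
  obtain ⟨γ, h0, h1, hlim, hle⟩ := Pool.Agent.LCSE.stmt_GAM (k + 2) (by omega)
  refine ⟨γ, ?_, ?_⟩
  · refine hlim.congr fun n => ?_
    rw [← (Pool.Agent.LCSE.stmt_CONV (k + 2) n).2]
    rfl
  · intro ε hε
    obtain ⟨δ₀, hδ₀, h⟩ := Pool.Agent.LCSE.stmt_TAIL Pool.Agent.LCSE.stmt_E (k + 2) (by omega) γ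
      hlim hle ε hε
    refine ⟨δ₀, hδ₀, fun δ hδ hδ1 => ?_⟩
    filter_upwards [h δ hδ hδ1] with n hn
    refine hn.trans (le_of_eq ?_)
    exact ((Pool.Agent.LCSE.stmt_CONV (k + 2) n).1 ((γ + δ) * n)).symm

end Pool.Agent.Results.MP_bec1e1_pr.UpperTail
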